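import Pool.Agent.Y627.PT.Eta

set_option autoImplicit false

/-!
# Joint parity patterns of `p(m n + i)` along progressions (MP_ebc808_nt)

Let `𝓜` be a finite set of positive integers such that for any two distinct elements `m, m'` with
`g = gcd(m, m')` one has `m / g ≢ m' / g (mod 24)` (for instance `𝓜 = {1, …, 24}`, or any finite set
of numbers `2 ^ a 3 ^ b`), and let `M ≥ 1`. There is a constant `C` such that every linear
combination `∑_{m ∈ 𝓜} ∑_{i < K} c(m, i) p(m n + i)` modulo 2, in which some `c(m, i) ≠ 0` belongs to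
a class `m ρ + i` modulo `m M` where `p` is not identically even (this is automatic by Radu's
theorem; no condition if `m M` is a power of 2), takes both values on the `n ≡ ρ (mod M)` in every
interval `[A, C (A + K)]`.

The method is described in `Results/MP_a3366f_nt/EtaQuotients` and `JointPatterns`: transcendence
measure of `D = X ∏ (1 - X ^ n) ^ 24` modulo 2; `D(X ^ d)` is algebraic over `F_2(D)` for every `d`
(Hecke operators); the sections of `P = ∑ p(n) X ^ n` are `X ^ (1 / 24)` times functions algebraic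
over `F_2(D)`; a linear relation between functions `∑ p(m n + i) X ^ n` splits according to the
exponents `(1 - 24 i) / (24 m)` modulo 1, which are distinct; Liouville relative to `F_2(X, D)`.
-/

namespace Pool.Agent.Results.MP_ebc808_nt.DilatesAndProgressions

theorem result (𝓜 : Finset ℕ) (h0 : 0 ∉ 𝓜)
    (hsep : ∀ m ∈ 𝓜, ∀ m' ∈ 𝓜, m ≠ m' → ¬ m / Nat.gcd m m' ≡ m' / Nat.gcd m m' [MOD 24])
    (M : ℕ) (hM : 0 < M) :
    ∃ C : ℕ, ∀ (K : ℕ) (c : ℕ → ℕ → ZMod 2) (ρ : ℕ),
      (∃ m ∈ 𝓜, ∃ i < K, c m i ≠ 0 ∧ ((∃ k, m * M = 2 ^ k) ∨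
        ∃ N, N ≡ m * ρ + i [MOD m * M] ∧ Odd (Fintype.card (Nat.Partition N)))) →
      ∀ (κ : ZMod 2) (A : ℕ), ∃ n, A ≤ n ∧ n ≤ C * (A + K) ∧ n ≡ ρ [MOD M] ∧
        ∑ m ∈ 𝓜, ∑ i ∈ Finset.range K,
          c m i * (Fintype.card (Nat.Partition (m * n + i)) : ZMod 2) = κ := by
  classical
  have hP : ∀ n, PowerSeries.coeff n Pool.Agent.TH693.PP.P =
      (Fintype.card (Nat.Partition n) : ZMod 2) := fun n => PowerSeries.coeff_mk _ _
  have hpos : ∀ x : {x // x ∈ 𝓜}, 0 < (x : ℕ) := fun x =>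
    Nat.pos_of_ne_zero fun h => h0 (h ▸ x.2)
  obtain ⟨C, hC⟩ := Pool.Agent.Y627.PT.main (Y := {x // x ∈ 𝓜})
    (fun _ => Pool.Agent.TH693.PP.P) (fun _ => 1) (fun _ => Pool.Agent.Y627.PT.sec_P)
    (fun x => (x : ℕ)) hpos (fun _ => by norm_num) (fun x y hxy h => by
      apply hsep x x.2 y y.2 (fun h => hxy (Subtype.ext h))
      rw [one_mul, one_mul] at h
      have h1 := (Int.modEq_iff_dvd).2 h
      exact (Int.natCast_modEq_iff).1 h1) M hM
  refine ⟨C, fun K c ρ hc κ A => ?_⟩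
  obtain ⟨n, h1, h2, h3, h4⟩ := hC K (fun x i => c x i) ρ (by
    obtain ⟨m, hm, i, hi, hci, hor⟩ := hc
    refine ⟨⟨m, hm⟩, i, hi, hci, ?_⟩
    simp only
    rcases hor with ⟨k, hk⟩ | ⟨N, hN, hodd⟩
    · rw [hk]
      have := Pool.Agent.TH693.QQ.proj_ne (t := 1) (k := k) (r := m * ρ + i) odd_one
      rwa [pow_one] at this
    · intro h5
      have h6 := congrArg (PowerSeries.coeff N) h5
      rw [Pool.Agent.TH693.QQ.proj, PowerSeries.coeff_mk, map_zero,
        if_pos (show N % (m * M) = (m * ρ + i) % (m * M) from hN), hP] at h6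
      exact (ZMod.natCast_ne_zero_iff_odd.2 hodd) h6) κ A
  refine ⟨n, h1, h2, h3, ?_⟩
  rw [← h4]
  rw [Finset.sum_coe_sort 𝓜 (fun m => ∑ i ∈ Finset.range K,
    c m i * PowerSeries.coeff (m * n + i) Pool.Agent.TH693.PP.P)]
  refine Finset.sum_congr rfl fun m _ => Finset.sum_congr rfl fun i _ => ?_
  rw [hP]

end Pool.Agent.Results.MP_ebc808_nt.DilatesAndProgressions
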