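import Pool.Agent.Y927.PT.E

set_option autoImplicit false

/-!
# Linear patterns in the parity of the partition function occur many times

Let `p n` be the number of partitions of `n`. For every `ε > 0` there is `c > 0` such that for all
`X ≥ 10 ^ 9` and EVERY nonempty set `I` of integers in `[0, √X / 11000]`

* `p (n + i)`, `i ∈ I`, have an odd sum for at least `c X ^ (1 / 2 - ε)` of the integers `n ≤ X`;
* they have an even sum for at least `√X / 5200` of the integers `n ≤ X`.

So no nontrivial linear relation modulo 2 (homogeneous or not) between consecutive values of `p`, of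
order at most `√X / 11000`, holds for all `n ≤ X` outside of a set of fewer than `c X ^ (1 / 2 - ε)`
integers. For `I = {0, 1}`: the parity changes, `p (n + 1) ≢ p n`, at least `c X ^ (1 / 2 - ε)` times
up to `X`.

Method. Modulo 2 let `E = ∑ q ^ g` over the generalised pentagonal numbers `g`, let `L = max I`,
`c(q) = ∑ q ^ (L - i)` and `B = c(q) ∑ p n q ^ n`, so that `B E = c(q)` and the coefficient of
`q ^ (n + L)` in `B` is `∑ p (n + i)`. Odd sums: for a pentagonal number `g > L` the coefficient of
`q ^ g` in `B E` is zero, and one of its terms is `B_0 = 1`; so `B_a = 1` for some `a = g - g' > 0`.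
Here `24 a = u ^ 2 - v ^ 2 ≥ u`, so `a > L` when `g` is larger than a multiple of `L ^ 2`, and each `a`
comes from at most as many `g` as `24 a` has divisors. Even sums: for a pentagonal number `g` and
`r < h`, where `h` is a small multiple of `√X`, the relations at `g - h + r` and `g + r` have
numbers of terms of different parities; one of them is odd, and one of its terms vanishes.
-/

namespace Pool.Agent.Results.MP_ebc808_nt.LinearPatternsManyTimes

open Finset Pool.Agent.Y927

theorem odd_iff (I : Finset ℕ) (n : ℕ) :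
    Odd (∑ i ∈ I, Fintype.card (Nat.Partition (n + i))) ↔
      PT.ps (fun n => (Fintype.card (Nat.Partition n) : ZMod 2)) I n ≠ 0 := by
  unfold PT.ps
  rw [← Nat.cast_sum, Ne, ZMod.natCast_eq_zero_iff, ← even_iff_two_dvd, Nat.not_even_iff_odd]

theorem even_iff (I : Finset ℕ) (n : ℕ) :
    Even (∑ i ∈ I, Fintype.card (Nat.Partition (n + i))) ↔
      PT.ps (fun n => (Fintype.card (Nat.Partition n) : ZMod 2)) I n = 0 := by
  unfold PT.ps
  rw [← Nat.cast_sum, ZMod.natCast_eq_zero_iff, ← even_iff_two_dvd]

/-- For every `ε > 0` there is `c > 0` such that for all `X ≥ 10 ^ 9` and all nonempty sets `I` of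
integers in `[0, √X / 11000]` the sum of the `p (n + i)`, `i ∈ I`, is odd for at least
`c X ^ (1 / 2 - ε)` and even for at least `√X / 5200` of the integers `0 ≤ n ≤ X`. -/
theorem result (ε : ℝ) (hε : 0 < ε) : ∃ c : ℝ, 0 < c ∧ ∀ X : ℕ, 10 ^ 9 ≤ X →
    ∀ I : Finset ℕ, I.Nonempty → (∀ i ∈ I, (i : ℝ) ≤ Real.sqrt X / 11000) →
      c * (X : ℝ) ^ (1 / 2 - ε) ≤ (((range (X + 1)).filter
        (fun n => Odd (∑ i ∈ I, Fintype.card (Nat.Partition (n + i))))).card : ℝ) ∧
      Real.sqrt X / 5200 ≤ (((range (X + 1)).filter
        (fun n => Even (∑ i ∈ I, Fintype.card (Nat.Partition (n + i))))).card : ℝ) := by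
  obtain ⟨c, hc, h⟩ := PT.odd_real ε hε
  refine ⟨c, hc, fun X hX I hI hIX => ?_⟩
  have hXr : (10 : ℝ) ^ 9 ≤ X := by exact_mod_cast hX
  have hR : 30000 ≤ Real.sqrt X := by
    apply Real.le_sqrt_of_sq_le
    linarith
  set L := I.max' hI with hLdef
  have hL : L ∈ I := I.max'_mem hI
  have hIL : ∀ i ∈ I, i ≤ L := fun i hi => I.le_max' i hi
  have hLX := hIX L hL
  constructor
  · have h1 := h 24 1 L X ((range (X + 1)).filter
      (fun n => PT.ps (fun n => (Fintype.card (Nat.Partition n) : ZMod 2)) I n ≠ 0)).card
      le_rfl le_rfl hX (by push_cast; linarith) hLX (by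
        intro D k0 k1 hD h0 h01 h02 hk1
        exact PT.odd_one PT.sys_one PT.fam24 (fun k _ => PT.pent_one k) (by simp) hIL hL hD h0 h01 hk1)
    refine h1.trans (le_of_eq ?_)
    congr 1
    congr 1
    apply filter_congr
    intro n _
    rw [odd_iff]
  · have h1 := PT.even_real (L := L) (X := X) (I := I) PT.sys_one PT.fam24 (fun k _ => by
      rw [one_pow, one_mul]; exact PT.pent_one k) le_rfl hIL hX (by push_cast; linarith) hLX
    rw [Nat.cast_one, one_mul] at h1
    refine h1.trans (le_of_eq ?_)
    congr 1
    congr 1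
    apply filter_congr
    intro n _
    rw [even_iff]

end Pool.Agent.Results.MP_ebc808_nt.LinearPatternsManyTimes
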